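import Pool.Agent.K1H24.ND.Vanish

/-!
# Spectral sequences of Adams type and the members of `Sq⁰`-families

`AdamsType` describes a spectral sequence with `E₂^{s,t} = Ext^{s,t}` and differentials `d_r` of
bidegree `(r, r - 1)`, as the Adams spectral sequence, in terms of classes on `E₂`.
-/

set_option autoImplicit false

namespace Pool.Agent.K1H24.ND

open Pool.Agent.W624.NS

/-- A spectral sequence with `E₂^{s,t} = Ext^{s,t}` and differentials
`d_r : E_r^{s,t} → E_r^{s+r,t+r-1}`, described by classes on `E₂`. The Adams spectral sequence has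
these properties. -/
structure AdamsType where
  /-- `Zero r s t x`: the class `x ∈ E₂^{s,t}` lives to `E_r`, and its image in `E_r` is `0` -/
  Zero : ℕ → (s : ℕ) → ℕ → Ext s → Prop
  /-- `Diff r s t x y`: the classes `x ∈ E₂^{s,t}` and `y ∈ E₂^{s+r,t+r-1}` live to `E_r`, and
  `d_r [x] = [y]` -/
  Diff : (r s : ℕ) → ℕ → Ext s → Ext (s + r) → Prop
  /-- on `E₂` only `0` is zero -/
  zero_two : ∀ s t (x : Ext s), Zero 2 s t x ↔ x = 0
  /-- the classes of `E₂^{s,t}` are represented by homogeneous cocycles of degree `t` -/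
  diff_hom : ∀ r s t (x : Ext s) y, Diff r s t x y → ∃ z : Z s, IsHom s t z.1 ∧ cl z = x
  /-- `d_r [0] = 0` -/
  diff_zero : ∀ r s t t' (y : Ext (s + r)), 2 ≤ r → t + r = t' + 1 → Diff r s t 0 y →
    Zero r (s + r) t' y
  /-- `E_{r+1}^{s,t} = ker d_r` for `s < r` -/
  zero_low : ∀ r s t (y : Ext s), 2 ≤ r → s < r → Zero (r + 1) s t y → Zero r s t y
  /-- `E_{r+1} = ker d_r / im d_r` -/
  zero_succ : ∀ r s t' (y : Ext (s + r)), 2 ≤ r → Zero (r + 1) (s + r) t' y →
    Zero r (s + r) t' y ∨ ∃ t x, t + r = t' + 1 ∧ Diff r s t x y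

namespace AdamsType

variable (S : AdamsType)

/-- all differentials vanish on `x ∈ E₂^{s,t}` -/
def Permanent (s t : ℕ) (x : Ext s) : Prop := ∀ r, 2 ≤ r → S.Diff r s t x 0

/-- the class `x ∈ E₂^{s,t}` survives to `E_∞`: it is a permanent cycle and no differential hits
it, that is, its image in every `E_r` is non-zero -/
def Survives (s t : ℕ) (x : Ext s) : Prop := S.Permanent s t x ∧ ∀ r, 2 ≤ r → ¬ S.Zero r s t x

end AdamsType

/-- one bound for finitely many lines -/
theorem vanish_range (s c : ℕ) : ∃ J : ℕ, ∀ r, c + 2 ≤ r → r ≤ s → ∀ u : ℕ,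
    2 ^ J ∣ u + (r - 1 - c) → ∀ x : Z (s - r), IsHom (s - r) u x.1 → cl x = 0 := by
  have key : ∀ r, c + 2 ≤ r → ∃ J : ℕ, ∀ u : ℕ, 2 ^ J ∣ u + (r - 1 - c) →
      ∀ x : Z (s - r), IsHom (s - r) u x.1 → cl x = 0 := fun r hr =>
    vanish (s - r) (r - 1 - c) (by omega)
  choose f hf using key
  refine ⟨∑ r ∈ Finset.range (s + 1), if h : c + 2 ≤ r then f r h else 0,
    fun r hr hrs u hu x hx => hf r hr u (dvd_trans (pow_dvd_pow 2 ?_) hu) x hx⟩
  have h1 := Finset.single_le_sum (f := fun r => if h : c + 2 ≤ r then f r h else 0)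
    (fun i _ => Nat.zero_le _) (Finset.mem_range.mpr (Nat.lt_succ_of_le hrs))
  simp only [dif_pos hr] at h1
  exact h1

/-- A class of internal degree `≡ c mod 2 ^ J` is hit only by `d_r` with `r ≤ c + 1`. -/
theorem hits (s c : ℕ) : ∃ J : ℕ, ∀ (S : AdamsType) (t : ℕ), t ≡ c [MOD 2 ^ J] →
    ∀ (y : Ext s) (r : ℕ), c + 2 ≤ r → S.Zero r s t y → S.Zero (c + 2) s t y := by
  obtain ⟨J, hJ⟩ := vanish_range s c
  refine ⟨J, fun S t ht y r hr => ?_⟩
  induction r, hr using Nat.le_induction with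
  | base => exact id
  | succ r hr ih =>
    intro h
    apply ih
    rcases Nat.lt_or_ge s r with hs | hs
    · exact S.zero_low r s t y (by omega) hs h
    · have hcast : ∀ (s' : ℕ) (hs' : s = s' + r) (y : Ext s), S.Zero (r + 1) s t y →
          (∀ u : ℕ, 2 ^ J ∣ u + (r - 1 - c) → ∀ x : Z s', IsHom s' u x.1 → cl x = 0) →
          S.Zero r s t y := by
        intro s' hs' y h hv
        subst hs'
        rcases S.zero_succ r s' t y (by omega) h with h | ⟨u, x, hu, hd⟩
        · exact h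
        · obtain ⟨z, hz, hzx⟩ := S.diff_hom _ _ _ _ _ hd
          have h1 : 2 ^ J ∣ u + (r - 1 - c) := by
            have h2 : u + (r - 1 - c) + c ≡ 0 + c [MOD 2 ^ J] := by
              have : u + (r - 1 - c) + c = t := by omega
              rw [this, zero_add]; exact ht
            exact (Nat.modEq_zero_iff_dvd).mp (Nat.ModEq.add_right_cancel' c h2)
          have h3 : x = 0 := by rw [← hzx]; exact hv u h1 z hz
          subst h3
          exact S.diff_zero r s' u t y (by omega) hu hd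
      exact hcast (s - r) (by omega) y h (fun u hu x hx => hJ r hr hs u hu x hx)

/-- No differential hits a member `x_j`, `j ≥ J`, of a `Sq⁰`-family on the `s`-line. -/
theorem never_hit (s : ℕ) : ∃ J : ℕ, ∀ (S : AdamsType) (t j : ℕ), J ≤ j → ∀ (y : Ext s) (r : ℕ),
    2 ≤ r → S.Zero r s (2 ^ j * t) y → y = 0 := by
  obtain ⟨J, hJ⟩ := hits s 0
  refine ⟨J, fun S t j hj y r hr h => ?_⟩
  have h1 := hJ S (2 ^ j * t) ((Nat.modEq_zero_iff_dvd).mpr
    (Dvd.dvd.mul_right (pow_dvd_pow 2 hj) t)) y r (by omega) h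
  exact (S.zero_two _ _ _).mp h1

end Pool.Agent.K1H24.ND
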