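import Pool.Agent.W624.NDst3

/-!
# Vanishing of `Ext^{p,t}` for `t ≡ -m mod 2 ^ r`

Uses the exactness theorem `Pool.Agent.W624.Stz.main_ind` of the starting files.
-/

set_option autoImplicit false

namespace Pool.Agent.K1H24.ND

open Finset MvPolynomial
open Pool.Agent.W624 Pool.Agent.W624.Stz

/-- the degree homomorphism -/
def deg : ℕ →+ ℤ × ((Empty → ℕ) × ℕ) :=
  (AddMonoidHom.inl ℤ ((Empty → ℕ) × ℕ)).comp (Nat.castAddMonoidHom ℤ)

theorem deg_apply (n : ℕ) : deg n = ((n : ℤ), ((fun _ => 0), 0)) := by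
  refine Prod.ext rfl (Prod.ext ?_ rfl)
  funext c
  exact c.elim

theorem io_TT {p u : ℕ} {x : NS.Cob p} (hx : NS.IsHom p u x) :
    TT (kun : Empty → Kd) p u (fun _ => 0) 0 (io p x) := by
  refine ⟨io_cut p x, ?_⟩
  have h := IW.aeval' (w := fun q : Fin p × ℕ => 2 ^ (q.2 + 1) - 1)
    (w' := wF (kun : Empty → Kd)) deg (io p) (fun v => by
      rw [io_X]
      have h2 : deg (2 ^ (v.2 + 1) - 1) = wF (kun : Empty → Kd) (.x (v.1 : ℕ) v.2) := by
        rw [deg_apply]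
        refine Prod.ext ?_ (Prod.ext (funext fun c => c.elim) rfl)
        change (((2 ^ (v.2 + 1) - 1 : ℕ)) : ℤ) = 2 ^ (v.2 + 1) - 1
        have : 1 ≤ 2 ^ (v.2 + 1) := Nat.one_le_two_pow
        push_cast [Nat.cast_sub this]
        ring
      rw [h2]
      exact isWeightedHomogeneous_X _ _ _) hx
  rwa [deg_apply] at h

/-- **Vanishing.** For all `p` and `m ≥ 1` there is `r` such that `Ext^{p,t} = 0` for all `t` with
`t ≡ -m mod 2 ^ r`. -/
theorem vanish (p m : ℕ) (hm : 1 ≤ m) : ∃ r : ℕ, ∀ u : ℕ, 2 ^ r ∣ u + m →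
    ∀ x : NS.Z p, NS.IsHom p u x.1 → NS.cl x = 0 := by
  obtain ⟨r, hr⟩ := (main_ind p).1 0 (-m) (by push_cast; omega)
  refine ⟨r, fun u hu x hx => ?_⟩
  rw [NS.cl_eq_zero]
  have h1 : (2 : ℤ) ^ r ∣ (u : ℤ) - (-m) := by
    rw [sub_neg_eq_add]
    exact_mod_cast hu
  have hd : dd (kun : Empty → Kd) p (io p (x.1 : ND.Cob p)) = 0 := by
    have h2 := ND.io_dC p (x.1 : ND.Cob p)
    have h3 : ND.dC p (x.1 : ND.Cob p) = 0 := (NS.dC_eq p x.1).symm.trans x.2
    rw [h3, map_zero] at h2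
    exact h2.symm
  obtain ⟨h, hh, hdh⟩ := hr Empty (fun _ => 0) (by simp) u h1 _ (io_TT hx) hd
  cases p with
  | zero =>
    have h4 : io 0 (x.1 : ND.Cob 0) = 0 := by rw [← hdh]; rfl
    have h5 := congrArg (ro 0) h4
    rw [map_zero] at h5
    exact (ro_io 0 (x.1 : ND.Cob 0)).symm.trans h5
  | succ q =>
    refine ⟨(ro q h : ND.Cob q), ?_⟩
    refine (NS.dC_eq q (ro q h)).trans ?_
    apply ND.io_inj
    refine (ND.io_dC q (ro q h)).trans ?_
    have h6 : io q (ro q h) = h := io_ro hh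
    rw [h6]
    exact hdh

end Pool.Agent.K1H24.ND
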